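import Pool.Agent.X270.NT.Bridge

/-!
The zero-in-the-spectrum conjecture for a finite aspherical complex `M` with fundamental group `G`,
from homology or cohomology of `G` with coefficients in Banach modules which are arbitrarily close
to being tempered, for instance `ℓ^q(Z)` with `q` close to `2` and `Z` a set with an action of `G`
whose stabilisers are amenable or of small exponent.

`X : FinRes G` is the cellular chain complex of the universal cover of `M`
(`Pool.Agent.H919R4.ZS.Defs`) and `X.homology (toRed G) i` is `H_i(M; C*_r(G))`. The definitions of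
`SeenByBanach` and `SeenByEll` are in `Pool.Agent.X270.NT.Stmt`.
-/

set_option autoImplicit false

namespace Pool.Agent.Results.MP_9f173d_gt.NearTempered

open Pool.Agent.H919R4.ZS (FinRes toRed)
open Pool.Agent.X270.NT.St (SeenByBanach SeenByEll)

/-- Let `X` be a finite free resolution of `ℤ` over `ℤ[G]` and let `p : ℕ`. Suppose that for every
finite `S ⊆ G` and every `ε > 0` there is a representation of `G` on a Banach space `V`,
`ε`-tempered with respect to `S`, with `H^i(G; V) ≠ 0` or `H_i(G; V) ≠ 0` for some `i ≤ p`; or
suppose that for all these `S` and `ε` there are a `G`-set `Z` and `q ∈ [1, ∞]` with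
`|q - 2| < ε`, such that the stabilisers are amenable or of exponent at most `ε` with respect to
`S`, and such that `H^i(G; ℓ^q(Z)) ≠ 0` or `H_i(G; ℓ^q(Z)) ≠ 0` for some `i ≤ p`. Then the homology
of `X` with coefficients in `C*_r(G)` does not vanish in some degree `i ≤ p`. -/
theorem result (G : Type) [Group G] (X : FinRes G) (p : ℕ)
    (h : (∀ (S : Set G) (ε : ℝ), S.Finite → 0 < ε → SeenByBanach X p S ε) ∨
      (∀ (S : Set G) (ε : ℝ), S.Finite → 0 < ε → SeenByEll X p S ε)) :
    ∃ i ≤ p, Nontrivial (X.homology (toRed G) i) :=
  Pool.Agent.X270.NT.St.final X p h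

end Pool.Agent.Results.MP_9f173d_gt.NearTempered
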