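import Pool.Agent.X250.ZS.Fin

/-!
# Zero in the spectrum for finite index subgroups of right-angled Coxeter groups

Let `W` be the right-angled Coxeter group of a finite graph `G`: generators are the vertices, all generators have
order two, and adjacent generators commute.  Let `Γ` be a torsion-free subgroup of finite index, and let `M` be any
finite aspherical complex with fundamental group `Γ`.  We show that `H_i(M; C*_r(Γ)) ≠ 0` for some `i ≤ dim M`.  By
Davis and Januszkiewicz all right-angled Artin groups are among the groups `Γ`, but there are many others, of any
dimension, for example hyperbolic ones.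

A finite aspherical CW complex enters through the cellular chain complex of its universal cover, which is a finite free
resolution of the trivial `ℤ[Γ]`-module `ℤ` (`Pool.Agent.H919R4.ZS.FinRes`); the reduced group `C*`-algebra and the
homology with coefficients in it are defined in `Pool.Agent.H919R4.ZS.Defs`.  The Coxeter group `W G` is defined in
`Pool.Agent.W907.SG.Defs`.

The idea of the proof: if the homology vanishes, then the `ℓ²`-chain complex of the Davis complex of `W` is exact.  In
the group algebra of `W` let `p s = (1 - s) / 2`.  The regular representation of `W` is one of a family of unitary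
representations on `ℓ²(W)`, depending continuously on a real number `x` between `0` and `1`, for which the delta function
at `1` is a trace vector and has `⟨p s δ, δ⟩ = x`; it belongs to `x = 1/2`.  The complexes for `x` near `1/2` are then
exact as well, hence their Euler characteristic with respect to the trace, the sum of the `(-x)^|T|` over the cliques
`T` of `G`, is zero; this is a contradiction, since it is a polynomial in `x` with constant term `1`.
-/

set_option autoImplicit false

namespace Pool.Agent.Results.MP_9f173d_gt.RightAngledCoxeterGroups

open Pool.Agent.W907.SG (W)
open Pool.Agent.H919R4.ZS (FinRes toRed)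

/-- Let `Γ` be a subgroup of finite index of the right-angled Coxeter group of a finite graph, and let `X` be a finite
free resolution of `ℤ` over `ℤ[Γ]`.  Then the homology of `X` with coefficients in the reduced group `C*`-algebra of `Γ`
does not vanish in some degree `i` which is at most the length of `X`. -/
theorem result (V : Type) [Fintype V] (G : SimpleGraph V) (Γ : Subgroup (W G)) [Γ.FiniteIndex] (X : FinRes Γ) :
    ∃ i ≤ X.len, Nontrivial (X.homology (toRed Γ) i) := by
  classical
  let _ : LinearOrder V := LinearOrder.lift' (Fintype.equivFin V) (Fintype.equivFin V).injective
  obtain ⟨i, hi⟩ := Pool.Agent.X250.ZS.main X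
  refine ⟨i, ?_, hi⟩
  by_contra h
  have h1 : X.n i = 0 := X.n_eq_zero i (not_le.1 h)
  have h2 : IsEmpty (Fin (X.n i)) := by
    rw [h1]
    infer_instance
  have h3 : Subsingleton (X.cyc (toRed Γ) i) := ⟨fun a b => Subtype.ext (funext fun j => h2.elim j)⟩
  have h4 : Subsingleton (X.homology (toRed Γ) i) := by
    refine ⟨fun a b => ?_⟩
    obtain ⟨a, rfl⟩ := Submodule.Quotient.mk_surjective _ a
    obtain ⟨b, rfl⟩ := Submodule.Quotient.mk_surjective _ b
    rw [h3.elim a b]
  exact not_nontrivial_iff_subsingleton.2 h4 hi

end Pool.Agent.Results.MP_9f173d_gt.RightAngledCoxeterGroups
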