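import Pool.Agent.X270.NT.Circ2

/-!
Zero in the spectrum for finite aspherical complexes from slowly growing integral cocycles of
degree at most two on the universal covering, or on the coverings with amenable or thin
fundamental group, which are not coboundaries of slowly growing integral cochains. A finite
aspherical CW complex enters through the cellular chain complex of its universal cover, which is
a finite free resolution of the trivial `ℤ[π]`-module `ℤ` (`Pool.Agent.H919R4.ZS.FinRes`). The
definitions are in `Pool.Agent.X270.NT.StmtI` and `Pool.Agent.X270.NT.StmtW`.
-/

set_option autoImplicit false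

namespace Pool.Agent.Results.MP_9f173d_gt.SlowIntegralCocycles

open Pool.Agent.H919R4.ZS (FinRes toRed)
open Pool.Agent.X270.NT.I (SeenByIntegers)

/-- Let `X` be a finite free resolution of `ℤ` over `ℤ[G]`. Suppose that for every finite `S ⊆ G`
and every `ε > 0` there are a subgroup `C` of `G`, amenable or of exponent at most `ε` with
respect to `S`, a weight `μ` on `G/C` of infinite total mass which varies under `S` at most by the
factor `e^ε`, and an integer valued cocycle `v` of degree `i ≤ 2` on `G/C` with `∑ |v|² μ < ∞`
which is not the coboundary of an integer valued cochain `w` with `∑ |w|² μ < ∞` (`v ≠ 0`, if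
`i = 0`). Then the homology of `X` with coefficients in the reduced group `C*`-algebra `C*_r(G)`
does not vanish in some degree `i ≤ 2`. -/
theorem result (G : Type) [Group G] (X : FinRes G)
    (h : ∀ (S : Set G) (ε : ℝ), S.Finite → 0 < ε → SeenByIntegers X S ε) :
    ∃ i ≤ 2, Nontrivial (X.homology (toRed G) i) :=
  Pool.Agent.X270.NT.T.finalI X h

end Pool.Agent.Results.MP_9f173d_gt.SlowIntegralCocycles
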