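import Pool.Agent.X308.R.Add

/-!
# A sublinear bound in high dimensions suffices

The class `C` of the theorem: finite aspherical CW complexes; `s` is
the infimum of the spectrum of the combinatorial Laplacian on the cellular l2-chains of the universal covering;
`k` is 1.
-/

set_option autoImplicit false

namespace Pool.Agent.Results.MP_9f173d_gt.SublinearGap

open Pool.Agent.X308.R

/-- **Theorem.** The superadditive number `s` is not positive for all objects of positive
dimension if and only if, in a sequence of dimensions `d t → ∞`, it is at most
`f (d t + c N) * k N` with a sublinear function `f` and a subadditive number `c ≥ 0`. -/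
theorem result {C : Type} (L : AdditiveClass C) (hk : ∀ M, 0 ≤ L.k M) :
    L.NonPositive ↔ L.SublinearBound :=
  L.nonPositive_iff hk

end Pool.Agent.Results.MP_9f173d_gt.SublinearGap
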